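import Pool.Agent.Work.MP_47f387_co.Bd.B05

/-!
# MP_47f387_co: assembly of the versions with explicit constants
-/

namespace Pool.Agent.Work.MP_47f387_co.Large

theorem asmB7x : B7x := prfB7x prfB4 prfB5 (prfB6 prfB5)

theorem asmB8x : B8x := prfB8x asmA13 prfB1 prfB2 prfB3 asmB7x

theorem asmC3x : C3x := prfC3x asmB8x prfC1 prfC2

theorem asmD1x : D1x := prfD1x asmC3x (prfC5 prfC4) prfC6

theorem asmV4x : V4x := prfV4x prfV2 prfV3

theorem asmV5x : V5x := prfV5x prfV0 asmV1 asmV4x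

theorem asmT1x : T1x := prfT1x asmV5x prfNVx prfNFx prfN1x asmE5 asmD1x asmD2 prfP1 prfP2

theorem asmT2x : T2x := prfT2x prfN1x asmV1 asmD1x prfP1 prfP2

theorem asmT3x : T3x := prfT3x asmT1x asmR5 prfP2

theorem asmT4x : T4x := prfT4x asmT2x asmR5 prfP2

end Pool.Agent.Work.MP_47f387_co.Large
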